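import Pool.Agent.H24.SCG.Base

/-! Case 2, elations. -/

namespace Pool.Agent.H42.SCG

open Matrix Pool.SCG

theorem c2e_thm (hTQT : TQTStmt) : C2EStmt := by
  intro F _ _ hF X a b h e b1 b2 b3 w1 w2 κ haX hbX hhX ha hb hh he hκ hw hom
  have h2 : (2 : F) ≠ 0 := hF.1
  have hdet : b1 * b2 * b3 = 1 := by rw [← dg_det]; exact ha.det
  have hb1 : b1 ≠ 0 := by rintro rfl; simp at hdet
  have hb2 : b2 ≠ 0 := by rintro rfl; simp at hdet
  have hb3 : b3 ≠ 0 := by rintro rfl; simp at hdet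
  have hw1 : w1 ≠ 0 := by
    rintro rfl
    have : b2 * w2 ^ 2 = 0 := by linear_combination hom
    rcases mul_eq_zero.1 this with h' | h'
    · exact hb2 h'
    · have h'' : w2 = 0 := by simpa using h'
      rcases hw with h3 | h3
      · exact h3 rfl
      · exact h3 h''
  have hw2 : w2 ≠ 0 := by
    rintro rfl
    have : b1 * w1 ^ 2 = 0 := by linear_combination hom
    rcases mul_eq_zero.1 this with h' | h'
    · exact hb1 h'
    · exact hw1 (by simpa using h')
  have hinv : dg b1 b2 b3 * dg b1⁻¹ b2⁻¹ b3⁻¹ = 1 := by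
    rw [dg_mul, mul_inv_cancel₀ hb1, mul_inv_cancel₀ hb2, mul_inv_cancel₀ hb3, dg_one]
  set k : F := -κ * w2 * (w1 * b1)⁻¹ with hk
  have hk0 : k ≠ 0 := by
    rw [hk]
    exact mul_ne_zero (mul_ne_zero (neg_ne_zero.2 hκ) hw2) (inv_ne_zero (mul_ne_zero hw1 hb1))
  have hb2e : b2 = -(b1 * w1 ^ 2) * (w2 ^ 2)⁻¹ := by
    field_simp
    linear_combination hom
  -- `x = a b`
  have hx : Is (a * b) false !![1 - k * w1 * w2, k * w1 ^ 2, 0;
      -(k * w2 ^ 2), 1 + k * w1 * w2, 0; 0, 0, 1] := by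
    have := ha.mul_outer' hb hinv
    rw [dg_transpose] at this
    refine ⟨this.1, ?_⟩
    rw [this.2]
    ext i j
    fin_cases i <;> fin_cases j <;>
      simp [dg, BK, Matrix.mul_apply, Fin.sum_univ_three, hk]
    all_goals first | (field_simp; done) | skip
    all_goals (rw [hb2e]; field_simp)
    all_goals ring
  have hy : Is (h * (a * b) * h) false !![1 - (-k) * w1 * (-w2), (-k) * w1 ^ 2, 0;
      -((-k) * (-w2) ^ 2), 1 + (-k) * w1 * (-w2), 0; 0, 0, 1] := by
    have := (hh.mul_inner hx).mul_inner hh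
    refine ⟨this.1, ?_⟩
    rw [this.2]
    ext i j
    fin_cases i <;> fin_cases j <;>
      simp [dg, Matrix.mul_apply, Fin.sum_univ_three]
  refine hTQT F h2 X (a * b) (h * (a * b) * h) e k w1 w2 (-k) w1 (-w2)
    (mul_mem haX hbX) (mul_mem (mul_mem hhX (mul_mem haX hbX)) hhX) hx hy hk0
    (neg_ne_zero.2 hk0) ?_ he
  have : w1 * -w2 - w2 * w1 = -(2 * (w1 * w2)) := by ring
  rw [this]
  exact neg_ne_zero.2 (mul_ne_zero h2 (mul_ne_zero hw1 hw2))

end Pool.Agent.H42.SCG
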